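import Pool.Agent.helper9.HX.Spec

/-!
# Row hx:N2 (MP_d9e35a_co), owner helper9
-/

set_option autoImplicit false

open scoped Classical

namespace Pool.Agent.helper9.HX

open Finset
open Pool.Agent.helper65.HC (V IsEig IsTop lam)
open Pool.Agent.helper9.HQ (Fam Dn E N Le hi c)

noncomputable section

theorem N2 (hN1 : N1_stmt) : N2_stmt := by
  intro a b g m ha hb hg hm
  obtain ⟨h1, h2, h3, -, h5, -⟩ := hN1 a b hb
  obtain ⟨-, -, -, h4, -, -⟩ := hN1 a (b + g) (by linarith)
  have hm0 : 0 < m := by linarith
  have hGm : G a b ≤ m := by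
    refine h5 m (by linarith) (by linarith) ?_
    have e1 : b + 1 ≤ m - a := by linarith
    have e2 : a ≤ m - b - 1 := by linarith
    have e3 : (b + 1) * a ≤ (m - a) * (m - b - 1) := mul_le_mul e1 e2 (by linarith) (by linarith)
    nlinarith
  apply h4
  set p := G a b - a with hp
  set q := G a b - b - 1 with hq
  have hp0 : 0 ≤ p := by linarith
  have hq0 : 0 ≤ q := by linarith
  set de := g * (p + 4) / (2 * m) with hde
  have hde2 : de * (2 * m) = g * (p + 4) := by
    rw [hde]
    field_simp
  have hde0 : 0 ≤ de := by positivity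
  have hdeg : de ≤ g := by
    rw [hde, div_le_iff₀ (by linarith)]
    refine mul_le_mul_of_nonneg_left ?_ hg
    linarith
  have e1 : (G a b + de - a) * (G a b + de - (b + g) - 1) = (p + de) * (q + de - g) := by
    rw [hp, hq]
    ring
  rw [e1]
  have e2 : (p + de) * (q + de - g) = p * q + de * (p + q + de - g) - g * p := by ring
  rw [e2, h1]
  have e3 : de * (p + q + de - g) ≤ de * (2 * m) := by
    refine mul_le_mul_of_nonneg_left ?_ hde0
    linarith
  linarith

end

end Pool.Agent.helper9.HX
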