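import Pool.Agent.helper9.HX.Spec

/-!
# Row hx:N3 (MP_d9e35a_co), owner helper9
-/

set_option autoImplicit false

open scoped Classical

namespace Pool.Agent.helper9.HX

open Finset
open Pool.Agent.helper65.HC (V IsEig IsTop lam)
open Pool.Agent.helper9.HQ (Fam Dn E N Le hi c)

noncomputable section

theorem N3 : N3_stmt := by
  refine ⟨fun m a b n han hnb => ?_, fun m n => ⟨?_, ?_⟩⟩
  · unfold F
    have key : (2 * n - m) ^ 2 + 16 * (m - 1 - n) ≤
        max ((2 * b - m) ^ 2 + 16 * (m - 1 - b)) ((2 * a - m) ^ 2 + 16 * (m - 1 - a)) := by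
      by_cases h : (b + a - m - 4) ≤ 0
      · refine le_trans ?_ (le_max_right _ _)
        nlinarith [mul_nonneg (sub_nonneg.2 han) (sub_nonneg.2 hnb)]
      · push Not at h
        refine le_trans ?_ (le_max_left _ _)
        nlinarith [mul_nonneg (sub_nonneg.2 han) (sub_nonneg.2 hnb)]
    rcases le_max_iff.1 key with h | h
    · refine le_trans ?_ (le_max_left _ _)
      have := Real.sqrt_le_sqrt h
      linarith
    · refine le_trans ?_ (le_max_right _ _)
      have := Real.sqrt_le_sqrt h
      linarith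
  · unfold F G
    rw [show n + (m - 1 - n) + 1 = m by ring,
      show (n - 1 - (m - 1 - n)) ^ 2 + 16 * (m - 1 - n) = (2 * n - m) ^ 2 + 16 * (m - 1 - n) by ring]
  · unfold F
    have := Real.sqrt_nonneg ((2 * n - m) ^ 2 + 16 * (m - 1 - n))
    linarith

end

end Pool.Agent.helper9.HX
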