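import Pool.Agent.helper9.HX.Spec

/-!
# Row hx:N5 (MP_d9e35a_co), owner helper9
-/

set_option autoImplicit false

open scoped Classical

namespace Pool.Agent.helper9.HX

open Finset
open Pool.Agent.helper65.HC (V IsEig IsTop lam)
open Pool.Agent.helper9.HQ (Fam Dn E N Le hi c)

noncomputable section

theorem N5 : N5_stmt := by
  intro ν h hν hh hhν
  set s := √(ν - 1) with hs
  have hs0 : 0 ≤ s := Real.sqrt_nonneg _
  have hs2 : s ^ 2 = ν - 1 := Real.sq_sqrt (by linarith)
  have e1 : G ν (ν - 1 - h) = (2 * ν - h + √(h ^ 2 + 16 * s ^ 2 - 16 * h)) / 2 := by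
    unfold G
    rw [hs2]
    rw [show ν + (ν - 1 - h) + 1 = 2 * ν - h by ring,
      show (ν - 1 - (ν - 1 - h)) ^ 2 + 16 * (ν - 1 - h) = h ^ 2 + 16 * (ν - 1) - 16 * h by ring]
  rw [e1]
  by_cases hc : h ≤ 4 * s
  · have e2 : √(h ^ 2 + 16 * s ^ 2 - 16 * h) ≤ 4 * s + h / 2 := by
      rw [Real.sqrt_le_left (by positivity)]
      nlinarith [mul_nonneg hh hs0, mul_nonneg hh (sub_nonneg.2 hc)]
    have e3 := min_le_left (h / 4) s
    linarith
  · push Not at hc
    have e2 : √(h ^ 2 + 16 * s ^ 2 - 16 * h) ≤ 2 * s + h := by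
      rw [Real.sqrt_le_left (by positivity)]
      nlinarith [mul_nonneg hs0 (sub_nonneg.2 hc.le)]
    have e3 := min_le_right (h / 4) s
    linarith

end

end Pool.Agent.helper9.HX
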